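import Pool.Agent.H87.AX.Targets4
import Pool.Agent.H68.SN.EN2

/-!
# Board `axs_modules`, row EA2: estimate (2) with bad set and tension
(adapted from Pool/Agent/H68/SN/EN2.lean)
-/

set_option autoImplicit false

namespace Pool.Agent.H4.AX

open Pool.Agent.H87.SN Pool.Agent.H87.SH Pool.Agent.H87.AX
open MeasureTheory Metric Set Filter Topology
open scoped ContDiff RealInnerProductSpace ENNReal
open Pool.Agent.H68.SN (continuous_rho continuous_zp continuous_kap nsq_nonneg nzs_nonneg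
  aesm_apply integrable_nsq)

theorem pf_EA2 (hROT : T_ROT) (hLA1 : T_LA1) (hCUT : T_CUT) (hPOT : T_POT) (hEA1 : T_EA1) :
    T_EA2 := by
  intro d C₀ C₁ M
  obtain ⟨ζ, L, hζs, hζ01, -, hζ1, hζ0, hL, hζg⟩ :=
    hCUT (d + 2) (5 / 4) (3 / 2) (by norm_num) (by norm_num)
  obtain ⟨K1, hK1, hEN⟩ := hEA1 d C₀ C₁ M
  refine ⟨7 * (|C₀| + K1) + 18 * L * |C₀| + 6 * |C₀|, by positivity, ?_⟩
  intro r hr hr0 hrM η w hW U χ hχ m u G τ hD
  have RF := hROT d
  have hrc : Continuous r := hr.continuous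
  have hζc : Continuous ζ := hζs.continuous
  have hκc := continuous_kap hW.eta_C1
  -- basic facts
  have hC0 : 0 ≤ C₀ := by
    have h1 := hW.P3 0 (mem_ball_self (by norm_num))
    have h2 : rho (0 : E (d + 2)) = 0 := by
      unfold rho
      simp
    rw [h2, zero_mul] at h1
    exact h1
  have habs : |C₀| = C₀ := abs_of_nonneg hC0
  have hbsub : ball (0 : E (d + 2)) (5 / 4) ⊆ ball (0 : E (d + 2)) 2 :=
    ball_subset_ball (by norm_num)
  have hts : tsupport ζ ⊆ closedBall (0 : E (d + 2)) (3 / 2) := by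
    refine closure_minimal ?_ isClosed_closedBall
    intro x hx
    rw [mem_closedBall_zero_iff]
    by_contra hc
    push Not at hc
    exact hx (hζ0 x hc.le)
  have hζcs : HasCompactSupport ζ :=
    (isCompact_closedBall (0 : E (d + 2)) (3 / 2)).of_isClosed_subset (isClosed_tsupport ζ) hts
  have hts2 : tsupport ζ ⊆ ball (0 : E (d + 2)) 2 :=
    hts.trans (closedBall_subset_ball (by norm_num))
  have hJ : ∀ x : E (d + 2), fderiv ℝ η x (Jm d x) = 0 := by
    intro x
    have h1 : HasDerivAt (fun s : ℝ => η (rot s x)) (fderiv ℝ η (rot 0 x) (Jm d (rot 0 x))) 0 :=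
      ((hW.eta_C1.differentiable (by simp)) (rot 0 x)).hasFDerivAt.comp_hasDerivAt 0
        (RF.hasDeriv x 0)
    have h2 : (fun s : ℝ => η (rot s x)) = fun _ => η x := by
      funext s
      exact hW.eta_rot s x
    rw [h2, RF.zero] at h1
    exact h1.unique (hasDerivAt_const 0 (η x))
  -- integrability
  set μ : Measure (E (d + 2)) := volume.restrict (ball (0 : E (d + 2)) 2) with hμ
  have hGm : AEStronglyMeasurable G μ := hD.memG.1
  have iN : Integrable (fun x => nsq (G x)) μ := integrable_nsq hD.memG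
  obtain ⟨B, hB⟩ := (isCompact_closedBall (0 : E (d + 2)) 2).exists_bound_of_continuousOn
    hκc.continuousOn
  have hB' : ∀ᵐ x ∂μ, |kap η x| ≤ B := by
    rw [hμ, ae_restrict_iff' measurableSet_ball]
    exact Filter.Eventually.of_forall fun x hx => hB x (ball_subset_closedBall hx)
  have hB0 : 0 ≤ B := (norm_nonneg _).trans (hB 0 (mem_closedBall_self (by norm_num)))
  have hζκm : AEStronglyMeasurable (fun x => ζ x * kap η x) μ :=
    (hζc.mul hκc).aestronglyMeasurable
  have hdom : ∀ g : E (d + 2) → ℝ, AEStronglyMeasurable g μ →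
      (∀ x, 0 ≤ g x ∧ g x ≤ nsq (G x)) → Integrable (fun x => ζ x * kap η x * g x) μ := by
    intro g hg hg1
    refine (iN.const_mul B).mono' (hζκm.mul hg) ?_
    filter_upwards [hB'] with x hx
    rw [Real.norm_eq_abs, abs_mul, abs_mul, abs_of_nonneg (hζ01 x).1, abs_of_nonneg (hg1 x).1]
    have h1 : ζ x * |kap η x| ≤ B := by
      calc ζ x * |kap η x| ≤ 1 * B :=
            mul_le_mul (hζ01 x).2 hx (abs_nonneg _) zero_le_one
        _ = B := one_mul B
    exact mul_le_mul h1 (hg1 x).2 (hg1 x).1 hB0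
  have hPm : AEStronglyMeasurable (fun x => (rho x ^ 2)⁻¹ * ‖G x (Pm d x)‖ ^ 2) μ :=
    ((continuous_rho.measurable.pow_const 2).inv.aestronglyMeasurable).mul
      ((aesm_apply hGm (Pm d)).norm.pow 2)
  have hJm : AEStronglyMeasurable (fun x => (rho x ^ 2)⁻¹ * ‖G x (Jm d x)‖ ^ 2) μ :=
    ((continuous_rho.measurable.pow_const 2).inv.aestronglyMeasurable).mul
      ((aesm_apply hGm (Jm d)).norm.pow 2)
  have hzm : AEStronglyMeasurable (fun x => nzs (G x)) μ := by
    unfold nzs
    refine Finset.aestronglyMeasurable_fun_sum _ fun i _ => ?_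
    exact (((ContinuousLinearMap.apply ℝ (E m)
      (bv i.succ.succ : E (d + 2))).continuous.comp_aestronglyMeasurable hGm).norm.pow 2)
  have hdec : ∀ x : E (d + 2), 0 < rho x → nsq (G x) = nzs (G x) +
      (rho x ^ 2)⁻¹ * ‖G x (Pm d x)‖ ^ 2 + (rho x ^ 2)⁻¹ * ‖G x (Jm d x)‖ ^ 2 := by
    intro x hx
    have h1 := hLA1 d m (G x) x
    have h2 : rho x ^ 2 ≠ 0 := by positivity
    field_simp
    linarith
  have hrn : ∀ x : E (d + 2), 0 ≤ rho x := fun x => Real.sqrt_nonneg _
  have hgA : ∀ x : E (d + 2), 0 ≤ nzs (G x) + (rho x ^ 2)⁻¹ * ‖G x (Pm d x)‖ ^ 2 ∧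
      nzs (G x) + (rho x ^ 2)⁻¹ * ‖G x (Pm d x)‖ ^ 2 ≤ nsq (G x) := by
    intro x
    refine ⟨add_nonneg (nzs_nonneg _) (by positivity), ?_⟩
    rcases (hrn x).eq_or_lt with h0 | h0
    · rw [← h0]
      have h2 : nzs (G x) ≤ nsq (G x) := by
        unfold nzs nsq
        rw [Fin.sum_univ_succ, Fin.sum_univ_succ]
        have a1 : 0 ≤ ‖(G x) (bv 0)‖ ^ 2 := by positivity
        have a2 : 0 ≤ ‖(G x) (bv (Fin.succ 0))‖ ^ 2 := by positivity
        linarith
      simpa using h2
    · rw [hdec x h0]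
      have : 0 ≤ (rho x ^ 2)⁻¹ * ‖G x (Jm d x)‖ ^ 2 := by positivity
      linarith
  have hgB : ∀ x : E (d + 2), 0 ≤ (rho x ^ 2)⁻¹ * ‖G x (Jm d x)‖ ^ 2 ∧
      (rho x ^ 2)⁻¹ * ‖G x (Jm d x)‖ ^ 2 ≤ nsq (G x) := by
    intro x
    refine ⟨by positivity, ?_⟩
    rcases (hrn x).eq_or_lt with h0 | h0
    · rw [← h0]
      simpa using nsq_nonneg (G x)
    · rw [hdec x h0]
      have h1 : 0 ≤ (rho x ^ 2)⁻¹ * ‖G x (Pm d x)‖ ^ 2 := by positivity
      have h2 := nzs_nonneg (G x)
      linarith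
  have iA : Integrable (fun x => ζ x * kap η x *
      (nzs (G x) + (rho x ^ 2)⁻¹ * ‖G x (Pm d x)‖ ^ 2)) μ := hdom _ (hzm.add hPm) hgA
  have iB := hdom _ hJm hgB
  have iT := hdom _ iN.1 (fun x => ⟨nsq_nonneg _, le_rfl⟩)
  have hκ0 : ∀ x : E (d + 2), rho x = 0 → kap η x = 0 := by
    intro x hx
    have h1 : Pm d x = 0 := by
      rw [← norm_eq_zero, RF.normP]
      exact hx
    unfold kap
    rw [h1, map_zero, neg_zero]
  have hE0 : 0 ≤ ∫ x, nsq (G x) ∂μ := integral_nonneg fun x => nsq_nonneg _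
  -- the decomposition
  have e1 : ∫ x, ζ x * kap η x * nsq (G x) ∂μ =
      (∫ x, ζ x * kap η x * (nzs (G x) + (rho x ^ 2)⁻¹ * ‖G x (Pm d x)‖ ^ 2) ∂μ) +
      ∫ x, ζ x * kap η x * ((rho x ^ 2)⁻¹ * ‖G x (Jm d x)‖ ^ 2) ∂μ := by
    rw [← integral_add iA iB]
    refine integral_congr_ae (Filter.Eventually.of_forall fun x => ?_)
    simp only
    rcases (hrn x).eq_or_lt with h0 | h0
    · rw [hκ0 x h0.symm]
      ring
    · rw [hdec x h0]
      ring
  have e2 := hPOT d m G τ ζ η C₀ L hD.memG hD.memT hD.tau hD.stat (hζs.of_le (by simp)) hζcs hts2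
    hζ01 hL hζg hW.eta_C1 (fun x _ => hJ x) hW.eta_nonneg hW.kap_nonneg hW.P1
    hW.P2 hW.P3
  -- the integral of the square of the tension
  have iτ : Integrable (fun x => τ x ^ 2) μ := hD.memT.integrable_sq
  have iQ : Integrable (fun x => nsq (G x) + τ x ^ 2) μ := iN.add iτ
  have hNQ : ∫ x, nsq (G x) ∂μ ≤ ∫ x, (nsq (G x) + τ x ^ 2) ∂μ := by
    refine integral_mono iN iQ fun x => ?_
    have : 0 ≤ τ x ^ 2 := by positivity
    simp only
    linarith
  have hQ0 : 0 ≤ ∫ x, (nsq (G x) + τ x ^ 2) ∂μ := hE0.trans hNQ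
  have hTS : ∫ x, τ x * Real.sqrt (nsq (G x)) ∂μ ≤
      1 / 2 * ∫ x, (nsq (G x) + τ x ^ 2) ∂μ := by
    rw [← integral_const_mul]
    refine integral_mono_of_nonneg (Filter.Eventually.of_forall fun x => ?_) (iQ.const_mul _)
      (Filter.Eventually.of_forall fun x => ?_)
    · exact mul_nonneg (hD.tau x) (Real.sqrt_nonneg _)
    · have h1 : Real.sqrt (nsq (G x)) ^ 2 = nsq (G x) := Real.sq_sqrt (nsq_nonneg _)
      simp only
      nlinarith [sq_nonneg (τ x - Real.sqrt (nsq (G x)))]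
  -- the angular part
  set S : Set (E (d + 2)) := {x | x ∈ ball (0 : E (d + 2)) (3 / 2) ∧ 2 * r (zp x) ≤ rho x} with hS
  have hSm : MeasurableSet S := by
    have h1 : S = ball (0 : E (d + 2)) (3 / 2) ∩ {x : E (d + 2) | 2 * r (zp x) ≤ rho x} := rfl
    rw [h1]
    exact measurableSet_ball.inter (isClosed_le (continuous_const.mul (hrc.comp continuous_zp))
      continuous_rho).measurableSet
  have hS2 : S ⊆ ball (0 : E (d + 2)) 2 := fun x hx => ball_subset_ball (by norm_num) hx.1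
  have hSpos : ∀ x : E (d + 2), 2 * r (zp x) ≤ rho x → 0 < rho x := by
    intro x hx
    have := hr0 (zp x)
    linarith
  have hK : IntegrableOn (fun x => χ x ^ 2 * (w x * ((rho x ^ 2)⁻¹ * ‖uth u x‖ ^ 2))) S := by
    have hc : IsCompact (closedBall (0 : E (d + 2)) (3 / 2) ∩
        {x : E (d + 2) | 2 * r (zp x) ≤ rho x}) :=
      (isCompact_closedBall _ _).inter_right
        (isClosed_le (continuous_const.mul (hrc.comp continuous_zp)) continuous_rho)
    have hcont : ContinuousOn (fun x => χ x ^ 2 * (w x * ((rho x ^ 2)⁻¹ * ‖uth u x‖ ^ 2)))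
        (closedBall (0 : E (d + 2)) (3 / 2) ∩ {x : E (d + 2) | 2 * r (zp x) ≤ rho x}) := by
      intro x hx
      have hρ := hSpos x hx.2
      have hpo : {y : E (d + 2) | 0 < rho y} ∈ 𝓝 x :=
        (isOpen_lt continuous_const continuous_rho).mem_nhds hρ
      by_cases hxU : x ∈ U
      · have h0 : ContinuousAt χ x := hχ.C1.continuousOn.continuousAt hpo
        have h1 : ContinuousAt w x := hW.w_C1.continuousOn.continuousAt hpo
        have h2 : ContinuousAt (fun x : E (d + 2) => (rho x ^ 2)⁻¹) x :=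
          ((continuous_rho.pow 2).continuousAt).inv₀ (pow_pos hρ 2).ne'
        have h3 : ContinuousAt (uth u) x := by
          have h4 : ContinuousOn (fderiv ℝ u) U :=
            hD.smooth.continuousOn_fderiv_of_isOpen hD.opn (by simp)
          have h5 : ContinuousOn (uth u) U := by
            unfold uth
            exact h4.clm_apply (Jm d).continuous.continuousOn
          exact h5.continuousAt (hD.opn.mem_nhds hxU)
        exact ((h0.pow 2).mul (h1.mul (h2.mul (h3.norm.pow 2)))).continuousWithinAt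
      · have h1 := hr0 (zp x)
        have h2 : 2 * r (zp x) ≤ rho x := hx.2
        have h3 := hχ.van x (closedBall_subset_closedBall (by norm_num) hx.1) (by linarith) hxU
        have h4 : (fun x => χ x ^ 2 * (w x * ((rho x ^ 2)⁻¹ * ‖uth u x‖ ^ 2))) =ᶠ[𝓝 x]
            fun _ => 0 := by
          filter_upwards [h3] with y hy
          rw [hy]
          ring
        exact (continuousAt_const.congr h4.symm).continuousWithinAt
    exact (hcont.integrableOn_compact hc).mono_set
      fun x hx => ⟨ball_subset_closedBall hx.1, hx.2⟩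
  have e3 : ∫ x, ζ x * kap η x * ((rho x ^ 2)⁻¹ * ‖G x (Jm d x)‖ ^ 2) ∂μ ≤
      (C₀ + K1) * ∫ x, (nsq (G x) + τ x ^ 2) ∂μ := by
    have h1 : Integrable (S.indicator fun x =>
        χ x ^ 2 * (w x * ((rho x ^ 2)⁻¹ * ‖uth u x‖ ^ 2))) μ :=
      (hK.integrable_indicator hSm).restrict
    have h2 : ∫ x, S.indicator (fun x =>
        χ x ^ 2 * (w x * ((rho x ^ 2)⁻¹ * ‖uth u x‖ ^ 2))) x ∂μ =
        ∫ x in S, χ x ^ 2 * (w x * ((rho x ^ 2)⁻¹ * ‖uth u x‖ ^ 2)) := by
      rw [hμ, setIntegral_indicator hSm, inter_eq_self_of_subset_right hS2]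
    have h3 := hEN r hr hr0 hrM η w hW U χ hχ m u G τ hD
    have h4 : ∀ᵐ x ∂μ, x ∈ U → G x = fderiv ℝ u x := by
      have h5 := (ae_restrict_iff' hD.opn.measurableSet).1 hD.ae
      exact ae_restrict_of_ae h5
    have h6 : ∀ᵐ x ∂μ, x ∈ ball (0 : E (d + 2)) 2 := ae_restrict_mem measurableSet_ball
    calc ∫ x, ζ x * kap η x * ((rho x ^ 2)⁻¹ * ‖G x (Jm d x)‖ ^ 2) ∂μ
        ≤ ∫ x, (C₀ * nsq (G x) +
          S.indicator (fun x => χ x ^ 2 * (w x * ((rho x ^ 2)⁻¹ * ‖uth u x‖ ^ 2))) x) ∂μ := by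
          refine integral_mono_ae iB ((iN.const_mul C₀).add h1) ?_
          filter_upwards [h4, h6] with x hx hx2
          have hκ := hW.kap_nonneg x hx2
          have hg := hgB x
          have hN := nsq_nonneg (G x)
          by_cases hxS : x ∈ S
          · rw [indicator_of_mem hxS]
            have hρ : 0 < rho x := hSpos x hxS.2
            have a3 : ζ x * kap η x ≤ w x := by
              calc ζ x * kap η x ≤ 1 * kap η x :=
                    mul_le_mul_of_nonneg_right (hζ01 x).2 hκ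
                _ = kap η x := one_mul _
                _ ≤ w x := hW.P5a x hx2 hρ
            have hw0 := hW.w_pos x hρ
            have a7 : 0 ≤ C₀ * nsq (G x) := mul_nonneg hC0 hN
            rcases (hχ.bd x).2.lt_or_eq with hχ1 | hχ1
            · have b1 := hχ.wle x hx2 hρ hχ1
              have b2 : ζ x * kap η x * ((rho x ^ 2)⁻¹ * ‖G x (Jm d x)‖ ^ 2) ≤
                  C₀ * nsq (G x) := mul_le_mul (a3.trans b1) hg.2 hg.1 hC0
              have b3 : 0 ≤ χ x ^ 2 * (w x * ((rho x ^ 2)⁻¹ * ‖uth u x‖ ^ 2)) := by positivity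
              linarith
            · have hxU : x ∈ U := by
                by_contra hxU
                have a1 := hr0 (zp x)
                have a2 : 2 * r (zp x) ≤ rho x := hxS.2
                have b1 := (hχ.van x (ball_subset_closedBall
                  (ball_subset_ball (by norm_num) hxS.1)) (by linarith) hxU).self_of_nhds
                rw [hχ1] at b1
                exact one_ne_zero b1
              have hGu := hx hxU
              have a4 : ‖G x (Jm d x)‖ = ‖uth u x‖ := by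
                rw [hGu]
                rfl
              rw [a4, hχ1]
              have a5 : 0 ≤ (rho x ^ 2)⁻¹ * ‖uth u x‖ ^ 2 := by positivity
              have a6 := mul_le_mul_of_nonneg_right a3 a5
              linarith
          · rw [indicator_of_notMem hxS, add_zero]
            by_cases hx3 : x ∈ ball (0 : E (d + 2)) (3 / 2)
            · have a1 : rho x ≤ 2 * r (zp x) := by
                by_contra hc
                push Not at hc
                exact hxS ⟨hx3, hc.le⟩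
              have a2 := hW.P4 x hx2 a1
              have a3 : ζ x * kap η x ≤ C₀ := by
                calc ζ x * kap η x ≤ 1 * kap η x :=
                      mul_le_mul_of_nonneg_right (hζ01 x).2 hκ
                  _ = kap η x := one_mul _
                  _ ≤ C₀ := a2
              exact mul_le_mul a3 hg.2 hg.1 hC0
            · have a1 : ζ x = 0 := by
                refine hζ0 x ?_
                rw [mem_ball_zero_iff] at hx3
                push Not at hx3
                exact hx3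
              rw [a1, zero_mul, zero_mul]
              exact mul_nonneg hC0 hN
      _ = C₀ * (∫ x, nsq (G x) ∂μ) +
          ∫ x in S, χ x ^ 2 * (w x * ((rho x ^ 2)⁻¹ * ‖uth u x‖ ^ 2)) := by
          rw [integral_add (iN.const_mul C₀) h1, integral_const_mul, h2]
      _ ≤ (C₀ + K1) * ∫ x, (nsq (G x) + τ x ^ 2) ∂μ := by
          have h7 : ∫ x in S, χ x ^ 2 * (w x * ((rho x ^ 2)⁻¹ * ‖uth u x‖ ^ 2)) ≤
              K1 * ∫ x, (nsq (G x) + τ x ^ 2) ∂μ := h3
          have h8 : C₀ * (∫ x, nsq (G x) ∂μ) ≤ C₀ * ∫ x, (nsq (G x) + τ x ^ 2) ∂μ :=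
            mul_le_mul_of_nonneg_left hNQ hC0
          rw [add_mul]
          linarith
  -- the ball of radius 5/4
  have e4 : ∫ x in ball (0 : E (d + 2)) (5 / 4), kap η x * nsq (G x) ≤
      ∫ x, ζ x * kap η x * nsq (G x) ∂μ := by
    have h1 : ∫ x in ball (0 : E (d + 2)) (5 / 4), kap η x * nsq (G x) =
        ∫ x in ball (0 : E (d + 2)) (5 / 4), ζ x * kap η x * nsq (G x) := by
      refine setIntegral_congr_fun measurableSet_ball fun x hx => ?_
      rw [hζ1 x (mem_ball_zero_iff.1 hx).le, one_mul]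
    rw [h1]
    refine setIntegral_mono_set iT ?_ (Filter.Eventually.of_forall fun x hx => hbsub hx)
    rw [Filter.EventuallyLE]
    have h6 : ∀ᵐ x ∂μ, x ∈ ball (0 : E (d + 2)) 2 := ae_restrict_mem measurableSet_ball
    filter_upwards [h6] with x hx
    exact mul_nonneg (mul_nonneg (hζ01 x).1 (hW.kap_nonneg x hx)) (nsq_nonneg _)
  rw [habs]
  refine e4.trans ?_
  rw [e1]
  have e5 : ∫ x, ζ x * kap η x * (nzs (G x) + (rho x ^ 2)⁻¹ * ‖G x (Pm d x)‖ ^ 2) ∂μ ≤
      6 * (∫ x, ζ x * kap η x * ((rho x ^ 2)⁻¹ * ‖G x (Jm d x)‖ ^ 2) ∂μ) +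
      18 * L * C₀ * (∫ x, nsq (G x) ∂μ) +
      12 * C₀ * ∫ x, τ x * Real.sqrt (nsq (G x)) ∂μ := e2
  have e6 : (7 * (C₀ + K1) + 18 * L * C₀ + 6 * C₀) * ∫ x, (nsq (G x) + τ x ^ 2) ∂μ =
      7 * ((C₀ + K1) * ∫ x, (nsq (G x) + τ x ^ 2) ∂μ) +
      18 * L * C₀ * (∫ x, (nsq (G x) + τ x ^ 2) ∂μ) +
      12 * C₀ * (1 / 2 * ∫ x, (nsq (G x) + τ x ^ 2) ∂μ) := by ring
  have e7 : 18 * L * C₀ * (∫ x, nsq (G x) ∂μ) ≤
      18 * L * C₀ * ∫ x, (nsq (G x) + τ x ^ 2) ∂μ :=
    mul_le_mul_of_nonneg_left hNQ (by positivity)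
  have e8 : 12 * C₀ * (∫ x, τ x * Real.sqrt (nsq (G x)) ∂μ) ≤
      12 * C₀ * (1 / 2 * ∫ x, (nsq (G x) + τ x ^ 2) ∂μ) :=
    mul_le_mul_of_nonneg_left hTS (by positivity)
  rw [e6]
  linarith

end Pool.Agent.H4.AX
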