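import Pool.Agent.H87.AX.BPT
import Pool.Agent.H14.SN.ROT

/-!
# Board `axs_modules`, row NUE: the measure of the bad set
-/

set_option autoImplicit false

open Pool.Agent.H87.SN Pool.Agent.H87.SH Pool.Agent.H87.AX
open MeasureTheory Metric Set Filter Topology
open scoped ContDiff RealInnerProductSpace ENNReal

namespace Pool.Agent.H4.AX

open Pool.Agent.H14.SN (ext2 rot_c0 rot_c1 rot_c2)

theorem pt_c0 (s τ : ℝ) : (pt s τ) 0 = s := by
  unfold pt
  simp [bv]

theorem pt_c1 (s τ : ℝ) : (pt s τ) 1 = 0 := by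
  unfold pt
  simp [bv]

theorem pt_c2 (s τ : ℝ) : (pt s τ) 2 = τ := by
  unfold pt
  simp [bv]

theorem pt_rho {s : ℝ} (τ : ℝ) (hs : 0 ≤ s) : rho (pt s τ) = s := by
  unfold rho
  have h0 : (pt s τ) 0 = s := pt_c0 s τ
  have h1 : (pt s τ) 1 = 0 := pt_c1 s τ
  rw [h0, h1]
  rw [show s ^ 2 + (0 : ℝ) ^ 2 = s ^ 2 by ring, Real.sqrt_sq hs]

theorem pt_zp (s τ : ℝ) : zp (pt s τ) 0 = τ := pt_c2 s τ

theorem zp_sub (x y : E (1 + 2)) : zp (x - y) 0 = zp x 0 - zp y 0 := rfl

theorem rho_le_norm (x : E (1 + 2)) : rho x ≤ ‖x‖ := by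
  have h := norm_sq_rz x
  have h0 : 0 ≤ rho x := Real.sqrt_nonneg _
  nlinarith [norm_nonneg x, sq_nonneg (zp x 0)]

theorem zp_le_norm (x : E (1 + 2)) : |zp x 0| ≤ ‖x‖ := by
  have h := norm_sq_rz x
  have h0 : 0 ≤ |zp x 0| := abs_nonneg _
  have h1 : |zp x 0| ^ 2 = (zp x 0) ^ 2 := sq_abs _
  nlinarith [norm_nonneg x, sq_nonneg (rho x)]

theorem rho_lip (hROT : T_ROT) (x y : E (1 + 2)) : |rho x - rho y| ≤ ‖x - y‖ := by
  have hF := hROT 1
  rw [← hF.normP x, ← hF.normP y]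
  refine (abs_norm_sub_norm_le _ _).trans ?_
  rw [← map_sub, hF.normP]
  exact rho_le_norm _

theorem zp_lip (x y : E (1 + 2)) : |zp x 0 - zp y 0| ≤ ‖x - y‖ := by
  rw [← zp_sub]
  exact zp_le_norm _

theorem exists_rot (x : E (1 + 2)) : ∃ θ : ℝ, x = rot θ (pt (rho x) (zp x 0)) := by
  set z : ℂ := ⟨x 0, x 1⟩ with hz
  have hn : ‖z‖ = rho x := by
    rw [Complex.norm_eq_sqrt_sq_add_sq]
    rfl
  refine ⟨Complex.arg z, ?_⟩
  have h1 := Complex.norm_mul_cos_arg z
  have h2 := Complex.norm_mul_sin_arg z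
  rw [hn] at h1 h2
  refine ext2 ?_ ?_ fun i => ?_
  · rw [rot_c0]
    have e0 : (pt (rho x) (zp x 0)) 0 = rho x := pt_c0 _ _
    have e1 : (pt (rho x) (zp x 0)) 1 = 0 := pt_c1 _ _
    rw [e0, e1, mul_zero, sub_zero, mul_comm, h1]
  · rw [rot_c1]
    have e0 : (pt (rho x) (zp x 0)) 0 = rho x := pt_c0 _ _
    have e1 : (pt (rho x) (zp x 0)) 1 = 0 := pt_c1 _ _
    rw [e0, e1, mul_zero, add_zero, mul_comm, h2]
  · rw [rot_c2]
    fin_cases i
    exact (pt_c2 (rho x) (zp x 0)).symm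

/-- the squares -/
def sq (p : ℝ × ℝ) : Set (ℝ × ℝ) := {q | |q.1 - p.1| < p.1 / 16 ∧ |q.2 - p.2| < p.1 / 16}

theorem sq_open (p : ℝ × ℝ) : IsOpen (sq p) := by
  have h1 : IsOpen {q : ℝ × ℝ | |q.1 - p.1| < p.1 / 16} :=
    isOpen_lt (by fun_prop) continuous_const
  have h2 : IsOpen {q : ℝ × ℝ | |q.2 - p.2| < p.1 / 16} :=
    isOpen_lt (by fun_prop) continuous_const
  exact h1.inter h2

/-- the fixed region -/
def Tp : Set (ℝ × ℝ) := {q | 1 / 64 < q.1 ∧ q.1 < 4 ∧ |q.2| < 4}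

theorem Tp_eq : Tp = Ioo (1 / 64 : ℝ) 4 ×ˢ Ioo (-4 : ℝ) 4 := by
  ext q
  simp only [Tp, mem_setOf_eq, mem_prod, mem_Ioo, abs_lt]
  tauto

theorem Tp_meas : MeasurableSet Tp := by
  rw [Tp_eq]
  exact measurableSet_Ioo.prod measurableSet_Ioo

theorem Tp_vol : volume Tp ≤ ENNReal.ofReal 32 := by
  rw [Tp_eq, Measure.volume_eq_prod, Measure.prod_prod, Real.volume_Ioo, Real.volume_Ioo,
    ← ENNReal.ofReal_mul (by norm_num)]
  exact ENNReal.ofReal_le_ofReal (by norm_num)

theorem Tp_int : ∫⁻ q in Tp, ENNReal.ofReal (1 / q.1) ≤ ENNReal.ofReal 2048 := by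
  have h1 : ∫⁻ q in Tp, ENNReal.ofReal (1 / q.1) ≤ ∫⁻ _ in Tp, ENNReal.ofReal 64 := by
    refine setLIntegral_mono measurable_const fun q hq => ?_
    apply ENNReal.ofReal_le_ofReal
    have h2 : 1 / 64 < q.1 := hq.1
    rw [div_le_iff₀ (by linarith)]
    linarith
  refine h1.trans ?_
  rw [setLIntegral_const]
  calc ENNReal.ofReal 64 * volume Tp ≤ ENNReal.ofReal 64 * ENNReal.ofReal 32 := by
        gcongr
        exact Tp_vol
    _ = ENNReal.ofReal 2048 := by
        rw [← ENNReal.ofReal_mul (by norm_num)]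
        norm_num

theorem pf_NUE (hROT : T_ROT) (hGEO : T_GEO) (_hKVF : T_KVF) (hEPS : T_EPS) (hPCK : T_PCK)
    (hNBH : T_NBH) (hAXF : T_AXF) : T_NUE := by
  intro m N A P δ hN hA hP hδ
  obtain ⟨L, hL, hgeo⟩ := hGEO m N A hN hA
  obtain ⟨ε, hε, heps⟩ := hEPS 1 m L (δ / 2) hL (by positivity)
  obtain ⟨CP, hCP, hpck⟩ := hPCK
  refine ⟨3 * CP / ε + 2048, by positivity, ?_⟩
  intro u E₀ hu hE₀ hen
  obtain ⟨horth, hlap, -⟩ := hgeo 1 offAxis u offAxis_open hu.smooth hu.val hu.pde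
  obtain ⟨-, -, -, hinv⟩ := hAXF m P u hP hu.smooth hu.axial
  have hec : ContinuousOn (en u) offAxis := by
    have h1 : ContDiffOn ℝ ∞ (fderiv ℝ u) offAxis :=
      hu.smooth.fderiv_of_isOpen offAxis_open (by norm_num)
    have h3 : ContinuousOn (fderiv ℝ u) offAxis := h1.continuousOn
    unfold en nsq
    exact continuousOn_finsetSum _ fun i _ => ((h3.clm_apply continuousOn_const).norm.pow 2)
  have hen0 : ∀ x, 0 ≤ en u x := by
    intro x
    unfold en nsq
    exact Finset.sum_nonneg fun i _ => by positivity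
  -- the sets
  set B0 : Set (ℝ × ℝ) := {p | 0 < p.1 ∧ p.1 ≤ 1 / 32 ∧ p.1 ^ 2 + p.2 ^ 2 < (15 / 8) ^ 2 ∧
    δ < p.1 * Real.sqrt (en u (pt p.1 p.2))} with hB0
  set B1 : Set (ℝ × ℝ) := ⋃ p ∈ B0, sq p with hB1
  have hB1o : IsOpen B1 := isOpen_biUnion fun p _ => sq_open p
  have hB1p : B1 ⊆ {p | 0 < p.1} := by
    intro q hq
    rw [hB1, mem_iUnion₂] at hq
    obtain ⟨p, hp, hq⟩ := hq
    have h1 := (abs_lt.1 hq.1).1
    have h2 : 0 < p.1 := hp.1
    show 0 < q.1
    linarith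
  set S : Set (ℝ × ℝ) := B1 ∪ Tp with hS
  have hSm : MeasurableSet S := hB1o.measurableSet.union Tp_meas
  have hSp : S ⊆ {p | 0 < p.1} := by
    intro q hq
    rcases hq with hq | hq
    · exact hB1p hq
    · have h1 : 1 / 64 < q.1 := hq.1
      show 0 < q.1
      linarith
  have hdm : Measurable (fun q : ℝ × ℝ => ENNReal.ofReal (1 / q.1)) := by fun_prop
  set ν : Measure (ℝ × ℝ) := (volume.restrict S).withDensity
    (fun q => ENNReal.ofReal (1 / q.1)) with hν
  -- packing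
  have hmeasE : Measurable (fun x => ENNReal.ofReal (offAxis.indicator (en u) x)) :=
    (meas_ind offAxis_open.measurableSet hec).ennreal_ofReal
  have hpk := hpck (fun x => ENNReal.ofReal (offAxis.indicator (en u) x)) B1 (ε / 3) hmeasE
    hB1o.measurableSet hB1p (by positivity) (by
    intro p hp
    rw [hB1, mem_iUnion₂] at hp
    obtain ⟨p0, hp0, hp⟩ := hp
    obtain ⟨a0, a1, a2, a3⟩ := hp0
    have b1 := abs_lt.1 hp.1
    have b2 := abs_lt.1 hp.2
    set x0 : E (1 + 2) := pt p0.1 p0.2 with hx0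
    have hr0 : rho x0 = p0.1 := pt_rho _ a0.le
    have hz0 : zp x0 0 = p0.2 := pt_zp _ _
    have hx0n : ‖x0‖ < 15 / 8 := by
      have h1 := norm_sq_rz x0
      rw [hr0, hz0] at h1
      rw [← h1] at a2
      exact lt_of_pow_lt_pow_left₀ 2 (by norm_num) a2
    have hball : ball x0 (p0.1 / 2) ⊆ offAxis := by
      intro x hx
      rw [mem_ball, dist_eq_norm] at hx
      refine ⟨?_, ?_⟩
      · rw [mem_ball_zero_iff]
        have h1 : ‖x‖ ≤ ‖x - x0‖ + ‖x0‖ := by
          have := norm_add_le (x - x0) x0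
          simpa using this
        linarith
      · have h1 := (abs_le.1 (rho_lip hROT x x0)).1
        rw [hr0] at h1
        linarith
    have hring : ball x0 (p0.1 / 2) ⊆ rg p (3 / 4) := by
      intro x hx
      rw [mem_ball, dist_eq_norm] at hx
      have h1 := abs_le.1 (rho_lip hROT x x0)
      have h2 := abs_le.1 (zp_lip x x0)
      rw [hr0] at h1
      rw [hz0] at h2
      refine ⟨?_, ?_⟩
      · rw [abs_lt]
        constructor <;> linarith [h1.1, h1.2, b1.1, b1.2]
      · rw [abs_lt]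
        constructor <;> linarith [h2.1, h2.2, b1.1, b1.2, b2.1, b2.2]
    have hHM : HM (1 + 2) m L (ball x0 (p0.1 / 2)) u :=
      ⟨hu.smooth.mono hball, fun x hx => horth x (hball hx), fun x hx => hlap x (hball hx)⟩
    have hbig : ENNReal.ofReal (ε / 3 * p.1) ≤ engy u (ball x0 (p0.1 / 2)) := by
      by_contra hcon
      have h1 : engy u (ball x0 (p0.1 / 2)) ≤ ENNReal.ofReal (ε * (p0.1 / 2) ^ 1) := by
        refine (not_le.1 hcon).le.trans (ENNReal.ofReal_le_ofReal ?_)
        rw [pow_one]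
        nlinarith
      have h2 := heps u x0 (p0.1 / 2) (by positivity) hHM h1
      have h3 : δ ^ 2 < (p0.1 * Real.sqrt (en u x0)) ^ 2 := pow_lt_pow_left₀ a3 hδ.le (by norm_num)
      rw [mul_pow, Real.sq_sqrt (hen0 x0)] at h3
      nlinarith
    refine hbig.trans ?_
    rw [lint_ind offAxis_open.measurableSet]
    exact lintegral_mono_set (subset_inter hring hball))
  have hE1 : ∫⁻ x, ENNReal.ofReal (offAxis.indicator (en u) x) = engy u offAxis := by
    rw [← setLIntegral_univ, lint_ind offAxis_open.measurableSet, univ_inter]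
    rfl
  rw [hE1] at hpk
  have hνuniv : ν univ ≤ ENNReal.ofReal ((3 * CP / ε + 2048) * (1 + E₀)) := by
    rw [hν, withDensity_apply _ MeasurableSet.univ, Measure.restrict_univ]
    calc ∫⁻ q in S, ENNReal.ofReal (1 / q.1) ≤
          (∫⁻ q in B1, ENNReal.ofReal (1 / q.1)) + ∫⁻ q in Tp, ENNReal.ofReal (1 / q.1) :=
          lintegral_union_le _ _ _
      _ ≤ ENNReal.ofReal (CP / (ε / 3)) * ENNReal.ofReal E₀ + ENNReal.ofReal 2048 := by
          refine add_le_add (hpk.trans ?_) Tp_int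
          gcongr
      _ = ENNReal.ofReal (CP / (ε / 3) * E₀ + 2048) := by
          rw [← ENNReal.ofReal_mul (by positivity), ← ENNReal.ofReal_add (by positivity)
            (by norm_num)]
      _ ≤ ENNReal.ofReal ((3 * CP / ε + 2048) * (1 + E₀)) := by
          apply ENNReal.ofReal_le_ofReal
          have h1 : CP / (ε / 3) = 3 * CP / ε := by
            field_simp
          rw [h1]
          have h2 : 0 ≤ 3 * CP / ε := by positivity
          nlinarith
  refine ⟨ν, ⟨?_, ?_⟩, hνuniv, ?_⟩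
  · exact ne_top_of_le_ne_top ENNReal.ofReal_ne_top hνuniv
  · have hm : MeasurableSet {q : ℝ × ℝ | q.1 ≤ 0} := measurableSet_le measurable_fst
      measurable_const
    have h0 : (volume.restrict S) {q : ℝ × ℝ | q.1 ≤ 0} = 0 := by
      rw [Measure.restrict_apply hm]
      have : {q : ℝ × ℝ | q.1 ≤ 0} ∩ S = ∅ := by
        apply eq_empty_of_forall_notMem
        rintro q ⟨h1, h2⟩
        have h3 : 0 < q.1 := hSp h2
        have h4 : q.1 ≤ 0 := h1
        linarith
      rw [this, measure_empty]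
    exact (withDensity_absolutelyContinuous _ _) h0
  · intro x hx
    by_contra hcon
    have hcon' : δ < rho x * Real.sqrt (en u x) := not_le.1 hcon
    obtain ⟨hx1, hx2, hx3⟩ := hx
    have hxo : x ∈ offAxis := ⟨ball_subset_ball (by norm_num) hx1, hx2⟩
    obtain ⟨θ, hθ⟩ := exists_rot x
    set s := rho x with hs
    set τ := zp x 0 with hτ
    have hnrm : s ^ 2 + τ ^ 2 < (15 / 8) ^ 2 := by
      rw [hs, hτ, ← norm_sq_rz]
      exact pow_lt_pow_left₀ (mem_ball_zero_iff.1 hx1) (norm_nonneg _) (by norm_num)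
    have hpt : pt s τ ∈ offAxis := by
      refine ⟨?_, ?_⟩
      · rw [mem_ball_zero_iff]
        have h1 := norm_sq_rz (pt s τ)
        rw [pt_rho _ hx2.le, pt_zp] at h1
        rw [← h1] at hnrm
        have h2 : ‖pt s τ‖ < 15 / 8 := lt_of_pow_lt_pow_left₀ 2 (by norm_num) hnrm
        linarith
      · rw [pt_rho _ hx2.le]
        exact hx2
    have hex : en u x = en u (pt s τ) := by
      rw [hθ]
      exact (hinv θ (pt s τ) hpt).1
    have hsub : sq (s, τ) ⊆ S := by
      by_cases hc : s ≤ 1 / 32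
      · have hp : (s, τ) ∈ B0 := by
          refine ⟨hx2, hc, hnrm, ?_⟩
          rw [hex] at hcon'
          exact hcon'
        intro q hq
        left
        rw [hB1, mem_iUnion₂]
        exact ⟨(s, τ), hp, hq⟩
      · intro q hq
        right
        have b1 := abs_lt.1 hq.1
        have b2 := abs_lt.1 hq.2
        have hc' : 1 / 32 < s := not_le.1 hc
        have hs2 : s < 15 / 8 := by nlinarith [sq_nonneg τ]
        have hτ2 : |τ| < 15 / 8 := by
          have h1 : |τ| ^ 2 = τ ^ 2 := sq_abs _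
          nlinarith [sq_nonneg s, abs_nonneg τ]
        have hτ3 := abs_lt.1 hτ2
        simp only at b1 b2
        refine ⟨by linarith [b1.1], by linarith [b1.2], ?_⟩
        rw [abs_lt]
        constructor <;> linarith [b2.1, b2.2, hτ3.1, hτ3.2]
    have hfin := hNBH ν (s, τ) ⟨ne_top_of_le_ne_top ENNReal.ofReal_ne_top hνuniv, by
      have hm : MeasurableSet {q : ℝ × ℝ | q.1 ≤ 0} := measurableSet_le measurable_fst
        measurable_const
      have h0 : (volume.restrict S) {q : ℝ × ℝ | q.1 ≤ 0} = 0 := by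
        rw [Measure.restrict_apply hm]
        have : {q : ℝ × ℝ | q.1 ≤ 0} ∩ S = ∅ := by
          apply eq_empty_of_forall_notMem
          rintro q ⟨h1, h2⟩
          have h3 : 0 < q.1 := hSp h2
          have h4 : q.1 ≤ 0 := h1
          linarith
        rw [this, measure_empty]
      exact (withDensity_absolutelyContinuous _ _) h0⟩ hx2 (by
      intro A' hA' hsubA
      rw [hν, withDensity_apply _ hA', Measure.restrict_restrict hA',
        inter_eq_left.2 (subset_trans hsubA hsub)])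
    have h3 : Jx ν x = Jn ν s τ := rfl
    rw [h3] at hx3
    exact absurd hfin (not_le.2 hx3)

end Pool.Agent.H4.AX
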