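import Pool.Agent.H87.AX.Targets4
import Pool.Agent.H35.SN.POH

/-!
# Board `axs_modules`, row POT: weighted Pohozaev inequality with a tension
(adapted from Pool/Agent/H35/SN/POH.lean)
-/

set_option autoImplicit false

namespace Pool.Agent.H4.AX

open Pool.Agent.H87.SN Pool.Agent.H87.SH Pool.Agent.H87.AX
open MeasureTheory Metric Set Filter Topology
open scoped ContDiff RealInnerProductSpace ENNReal
open Pool.Agent.H35.SN

theorem pot_stat {d m : ℕ} {G : E (d + 2) → E (d + 2) →L[ℝ] E m} {τ : E (d + 2) → ℝ}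
    (hS : StatT G τ) {ζ η : E (d + 2) → ℝ} (hζ : ContDiff ℝ 1 ζ) (hζc : HasCompactSupport ζ)
    (hζs : tsupport ζ ⊆ ball 0 2) (hη : ContDiff ℝ 1 η) :
    |∫ x in ball (0 : E (d + 2)) 2,
      statF (G x) (fderiv ℝ (fun x => (ζ x * η x) • Pm d x) x)| ≤
      2 * ∫ x in ball (0 : E (d + 2)) 2,
        τ x * (Real.sqrt (nsq (G x)) * ‖(ζ x * η x) • Pm d x‖) := by
  have hXc : ContDiff ℝ 1 (fun x => (ζ x * η x) • Pm d x) := (hζ.mul hη).smul (Pm d).contDiff
  have hXs : tsupport (fun x => (ζ x * η x) • Pm d x) ⊆ tsupport ζ := by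
    apply closure_mono
    intro x hx hx0
    apply hx
    simp only
    rw [hx0, zero_mul, zero_smul]
  have hXcs : HasCompactSupport (fun x => (ζ x * η x) • Pm d x) :=
    hζc.of_isClosed_subset (isClosed_tsupport _) hXs
  rw [setIntegral_eq_integral_of_forall_compl_eq_zero]
  · exact hS _ hXc hXcs (hXs.trans hζs)
  · intro x hx
    have h1 : x ∉ tsupport (fun x => (ζ x * η x) • Pm d x) := fun h => hx (hζs (hXs h))
    rw [fderiv_of_notMem_tsupport (𝕜 := ℝ) h1, statF_zero]

theorem pf_POT (hROT : T_ROT) (hLA1 : T_LA1) (hLA3 : T_LA3) : T_POT := by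
  intro d m G τ ζ η C₀ L hG hτ hτ0 hS hζ hζc hζs hζ0 hL hζL hη hJ hη0 hk0 hk2 hn hC
  have hR := hROT d
  have hXc : ContDiff ℝ 1 (fun x => (ζ x * η x) • Pm d x) := (hζ.mul hη).smul (Pm d).contDiff
  have hstat2 := pot_stat hS hζ hζc hζs hη
  have hnsqi := nsq_integrable hG
  have hτi : Integrable (fun x => τ x ^ 2) (volume.restrict (ball (0 : E (d + 2)) 2)) :=
    hτ.integrable_sq
  have hτs : Integrable (fun x => τ x * Real.sqrt (nsq (G x)))
      (volume.restrict (ball (0 : E (d + 2)) 2)) := by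
    refine Integrable.mono' (hτi.add hnsqi) ?_ (Eventually.of_forall fun x => ?_)
    · exact hτ.1.mul ((Real.continuous_sqrt.comp cont_nsq).comp_aestronglyMeasurable hG.1)
    · have h1 : Real.sqrt (nsq (G x)) ^ 2 = nsq (G x) := Real.sq_sqrt (nsq_nonneg _)
      rw [Real.norm_eq_abs, abs_of_nonneg (mul_nonneg (hτ0 x) (Real.sqrt_nonneg _))]
      show τ x * Real.sqrt (nsq (G x)) ≤ τ x ^ 2 + nsq (G x)
      nlinarith [sq_nonneg (τ x - Real.sqrt (nsq (G x))), sq_nonneg (τ x),
        sq_nonneg (Real.sqrt (nsq (G x)))]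
  have hstat3 : ∫ x in ball (0 : E (d + 2)) 2,
      statF (G x) (fderiv ℝ (fun x => (ζ x * η x) • Pm d x) x) ≤
      2 * (C₀ * ∫ x in ball (0 : E (d + 2)) 2, τ x * Real.sqrt (nsq (G x))) := by
    refine (le_abs_self _).trans (hstat2.trans ?_)
    refine mul_le_mul_of_nonneg_left ?_ (by norm_num)
    rw [← integral_const_mul]
    refine integral_mono_of_nonneg (Eventually.of_forall fun x => ?_) (hτs.const_mul C₀) ?_
    · exact mul_nonneg (hτ0 x) (mul_nonneg (Real.sqrt_nonneg _) (norm_nonneg _))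
    · rw [Filter.EventuallyLE, ae_restrict_iff' measurableSet_ball]
      refine Eventually.of_forall fun x hx => ?_
      have h1 : ‖(ζ x * η x) • Pm d x‖ ≤ C₀ := by
        have hx0 := hη0 x hx
        have hz := hζ0 x
        have hr := rho_nonneg x
        rw [norm_smul, hR.normP, Real.norm_eq_abs, abs_of_nonneg (mul_nonneg hz.1 hx0)]
        have h2 := hC x hx
        have h3 : ζ x * η x * rho x = ζ x * (rho x * η x) := by ring
        rw [h3]
        have h4 : 0 ≤ rho x * η x := mul_nonneg hr hx0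
        nlinarith
      have h5 : 0 ≤ τ x * Real.sqrt (nsq (G x)) := mul_nonneg (hτ0 x) (Real.sqrt_nonneg _)
      calc τ x * (Real.sqrt (nsq (G x)) * ‖(ζ x * η x) • Pm d x‖) =
            (τ x * Real.sqrt (nsq (G x))) * ‖(ζ x * η x) • Pm d x‖ := by ring
        _ ≤ (τ x * Real.sqrt (nsq (G x))) * C₀ := mul_le_mul_of_nonneg_left h1 h5
        _ = C₀ * (τ x * Real.sqrt (nsq (G x))) := by ring
  have hfη : Continuous (fun x => fderiv ℝ η x) := hη.continuous_fderiv (by norm_num)
  have hkc : Continuous (fun x => kap η x) := by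
    unfold kap
    exact (hfη.clm_apply (Pm d).continuous).neg
  have hF := statF_integrable hG _ (hXc.continuous_fderiv (by norm_num))
  obtain ⟨K, hK⟩ := bd_ball (fun x => ζ x * kap η x) (hζ.continuous.mul hkc)
  have hA : Integrable (fun x => ζ x * kap η x *
      (nzs (G x) + (rho x ^ 2)⁻¹ * ‖G x (Pm d x)‖ ^ 2))
      (volume.restrict (ball (0 : E (d + 2)) 2)) := by
    refine int_of_le hG _ K ?_ fun x hx => ?_
    · exact (hζ.continuous.mul hkc).aestronglyMeasurable.mul
        ((cont_nzs.comp_aestronglyMeasurable hG.1).add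
          ((rho_meas _).mul (app_meas hG.1 _ (Pm d).continuous)))
    · have h1 : 0 ≤ (rho x ^ 2)⁻¹ * ‖G x (Pm d x)‖ ^ 2 := by positivity
      have h2 : 0 ≤ (rho x ^ 2)⁻¹ * ‖G x (Jm d x)‖ ^ 2 := by positivity
      have h3 := nzs_nonneg (G x)
      rw [abs_mul, abs_of_nonneg (by linarith :
        0 ≤ nzs (G x) + (rho x ^ 2)⁻¹ * ‖G x (Pm d x)‖ ^ 2)]
      have h4 := split_le hLA1 (G x) x
      exact mul_le_mul (hK x hx) (by linarith) (by linarith) ((abs_nonneg _).trans (hK x hx))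
  have hD : Integrable (fun x => ζ x * kap η x *
      ((rho x ^ 2)⁻¹ * ‖G x (Jm d x)‖ ^ 2)) (volume.restrict (ball (0 : E (d + 2)) 2)) := by
    refine int_of_le hG _ K ?_ fun x hx => ?_
    · exact (hζ.continuous.mul hkc).aestronglyMeasurable.mul
        ((rho_meas _).mul (app_meas hG.1 _ (Jm d).continuous))
    · have h1 : 0 ≤ (rho x ^ 2)⁻¹ * ‖G x (Pm d x)‖ ^ 2 := by positivity
      have h2 : 0 ≤ (rho x ^ 2)⁻¹ * ‖G x (Jm d x)‖ ^ 2 := by positivity
      have h3 := nzs_nonneg (G x)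
      rw [abs_mul, abs_of_nonneg h2]
      have h4 := split_le hLA1 (G x) x
      exact mul_le_mul (hK x hx) (by linarith) h2 ((abs_nonneg _).trans (hK x hx))
  have hI := ((hD.const_mul 6).add (hnsqi.const_mul (18 * L * C₀))).add (hF.const_mul 6)
  have hmain := setIntegral_mono_on hA hI measurableSet_ball (fun x hx => by
    have h := pw hLA1 hLA3 hR (G x) x (fderiv ℝ ζ x) (fderiv ℝ η x) (ζ x) (η x) L C₀ (hζ0 x).1 hL
      (hζL x) (hJ x hx) (hη0 x hx) (hk0 x hx) (hk2 x hx) (hn x hx) (hC x hx)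
    rw [← field_fderiv hζ hη x] at h
    exact h)
  have h1 := integral_add ((hD.const_mul 6).add (hnsqi.const_mul (18 * L * C₀))) (hF.const_mul 6)
  have h2 := integral_add (hD.const_mul 6) (hnsqi.const_mul (18 * L * C₀))
  rw [integral_const_mul, integral_const_mul] at h2
  rw [integral_const_mul] at h1
  have h3 : 6 * ∫ x in ball (0 : E (d + 2)) 2,
      statF (G x) (fderiv ℝ (fun x => (ζ x * η x) • Pm d x) x) ≤
      12 * C₀ * ∫ x in ball (0 : E (d + 2)) 2, τ x * Real.sqrt (nsq (G x)) := by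
    calc _ ≤ 6 * (2 * (C₀ * ∫ x in ball (0 : E (d + 2)) 2, τ x * Real.sqrt (nsq (G x)))) :=
          mul_le_mul_of_nonneg_left hstat3 (by norm_num)
      _ = _ := by ring
  refine (hmain.trans (le_of_eq h1)).trans (add_le_add (le_of_eq h2) h3)

end Pool.Agent.H4.AX
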